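import Pool.Agent.K3h56.E2.Stm2
import Pool.Agent.K3h72.E2.Base
import Pool.Agent.K3h17.E2.Punit
import Pool.Agent.K3h15.E2.Mult

/-!
# Dictionary between `H` and `K` (bricks KH, KH1, AVK of helper56's project E2)
-/

set_option autoImplicit false
set_option linter.unusedSectionVars false
set_option linter.style.haveILetI false

open NumberField IsDedekindDomain
open scoped Pointwise

noncomputable section

namespace Pool.Agent.K3h3.E2

open Pool.Agent.K3h30.RS Pool.Agent.K3h56.E2
open Pool.Agent.K3h72.E2 (lies above_mid one_lt_norm)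

section val

variable {K H : Type} [Field K] [NumberField K] [Field H] [NumberField H] [Algebra K H]

/-- valuations and extensions -/
theorem val_one_iff {P : HeightOneSpectrum (𝓞 K)} {w : HeightOneSpectrum (𝓞 H)}
    (hP : Above {P} w) (x : K) :
    w.valuation H (algebraMap K H x) = 1 ↔ P.valuation K x = 1 := by
  haveI : w.asIdeal.LiesOver P.asIdeal := ⟨(above_singleton.1 hP).symm⟩
  rw [← HeightOneSpectrum.valuation_liesOver H P w x]
  have h0 : P.asIdeal.ramificationIdx' w.asIdeal ≠ 0 :=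
    Ideal.IsDedekindDomain.ramificationIdx'_ne_zero_of_liesOver w.asIdeal P.ne_bot
  rw [pow_eq_one_iff]
  exact ⟨fun h => h.resolve_right h0, Or.inl⟩

theorem inj : Function.Injective (Units.map (algebraMap K H : K →* H)) :=
  Units.map_injective (algebraMap K H).injective

/-- torsion -/
theorem mu_iff (x : Kˣ) : Units.map (algebraMap K H : K →* H) x ∈ mu H ↔ x ∈ mu K := by
  unfold mu
  rw [CommGroup.mem_torsion, CommGroup.mem_torsion]
  exact Function.Injective.isOfFinOrder_iff (f := Units.map (algebraMap K H : K →* H)) inj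

end val

theorem t_KH : S_KH := by
  intro F H G K _ _ _ _ _ _ _ _ _ _ _ _ _ τ χ hD D A hA
  haveI := hD.tower
  have hpart : ∀ (x : Kˣ), x ∈ minus τ →
      (∀ g : G, χ g = 1 → act g (Units.map (algebraMap K H : K →* H) x) =
        Units.map (algebraMap K H : K →* H) x) ∧
      ∀ g : G, χ g ≠ 1 → act g (Units.map (algebraMap K H : K →* H) x) =
        (Units.map (algebraMap K H : K →* H) x)⁻¹ := by
    intro x hx
    refine ⟨fun g hg => ?_, fun g hg => ?_⟩
    · apply Units.ext
      exact hD.one g hg x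
    · have hx' : actK τ x = x⁻¹ := hx
      have h1 : (τ (x : K)) = ((x⁻¹ : Kˣ) : K) := congrArg Units.val hx'
      rw [← map_inv]
      apply Units.ext
      show g • algebraMap K H x = algebraMap K H ((x⁻¹ : Kˣ) : K)
      rw [hD.neg g hg, h1]
  have hback : ∀ y : Hˣ, (∀ g : G, χ g = 1 → act g y = y) → (∀ g : G, χ g ≠ 1 → act g y = y⁻¹) →
      ∃ x : Kˣ, x ∈ minus τ ∧ Units.map (algebraMap K H : K →* H) x = y := by
    intro y h1 h2
    obtain ⟨x, hx⟩ := hD.fix (y : H) (fun g hg => congrArg Units.val (h1 g hg))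
    have hx0 : x ≠ 0 := by
      rintro rfl
      rw [map_zero] at hx
      exact y.ne_zero hx.symm
    have hy : Units.map (algebraMap K H : K →* H) (Units.mk0 x hx0) = y := Units.ext hx
    refine ⟨Units.mk0 x hx0, ?_, hy⟩
    obtain ⟨g, hg⟩ := hD.ex
    show actK τ (Units.mk0 x hx0) = (Units.mk0 x hx0)⁻¹
    apply inj (K := K) (H := H)
    rw [map_inv, hy, ← h2 g hg]
    apply Units.ext
    show algebraMap K H (τ x) = g • (y : H)
    rw [← hx, hD.neg g hg]
  constructor
  · ext y
    constructor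
    · rintro ⟨x, ⟨hx1, hx2⟩, rfl⟩
      refine ⟨?_, hpart x hx2⟩
      refine mem_unitGroup.2 ⟨fun w hw => ?_, fun w hw => ?_⟩
      · obtain ⟨P, hP⟩ := exists_above (F := K) w
        show w.valuation H (algebraMap K H x) = 1
        rw [val_one_iff hP]
        apply hx1 P
        intro hPA
        obtain ⟨v, hv, hvP⟩ := (hA P).1 hPA
        apply hw
        refine ⟨v, hv, ?_⟩
        rw [← lies hvP, ← lies hP, Ideal.comap_comap, ← IsScalarTower.algebraMap_eq]
      · obtain ⟨v, hv, -⟩ := hw
        exact absurd hv (by simp)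
    · rintro ⟨hy, h1, h2⟩
      obtain ⟨x, hx, rfl⟩ := hback y h1 h2
      refine ⟨x, ⟨?_, hx⟩, rfl⟩
      intro P hPA
      obtain ⟨w, hw⟩ := (Pool.Agent.K3h25.RS.t_OVER K H P).1
      rw [← val_one_iff hw]
      refine (mem_unitGroup.1 hy).1 w ?_
      rintro ⟨v, hv, hvw⟩
      apply hPA
      exact (hA P).2 ⟨v, hv, above_mid (above_singleton.2 hvw) hw⟩
  · ext y
    constructor
    · rintro ⟨x, ⟨hx1, hx2⟩, rfl⟩
      exact ⟨(mu_iff x).2 hx1, hpart x hx2⟩
    · rintro ⟨hy, h1, h2⟩
      obtain ⟨x, hx, rfl⟩ := hback y h1 h2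
      exact ⟨x, ⟨(mu_iff x).1 hy, hx⟩, rfl⟩

theorem t_KH1 : S_KH1 := by
  intro F H G _ _ _ _ _ _ _ _ _ D
  have hpart : ∀ (x : Fˣ),
      (∀ g : G, (1 : G →* ℂˣ) g = 1 → act g (Units.map (algebraMap F H : F →* H) x) =
        Units.map (algebraMap F H : F →* H) x) ∧
      ∀ g : G, (1 : G →* ℂˣ) g ≠ 1 → act g (Units.map (algebraMap F H : F →* H) x) =
        (Units.map (algebraMap F H : F →* H) x)⁻¹ := by
    intro x
    refine ⟨fun g _ => ?_, fun g hg => absurd rfl hg⟩
    apply Units.ext
    exact smul_algebraMap g (x : F)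
  have hback : ∀ y : Hˣ, (∀ g : G, (1 : G →* ℂˣ) g = 1 → act g y = y) →
      ∃ x : Fˣ, Units.map (algebraMap F H : F →* H) x = y := by
    intro y h1
    obtain ⟨x, hx⟩ := (IsGaloisGroup.isInvariant (G := G) (A := F) (B := H)).isInvariant (y : H)
      (fun g => congrArg Units.val (h1 g rfl))
    have hx0 : x ≠ 0 := by
      rintro rfl
      rw [map_zero] at hx
      exact y.ne_zero hx.symm
    exact ⟨Units.mk0 x hx0, Units.ext hx⟩
  constructor
  · ext y
    constructor
    · rintro ⟨x, hx, rfl⟩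
      refine ⟨?_, hpart x⟩
      refine mem_unitGroup.2 ⟨fun w hw => ?_, fun w hw => ?_⟩
      · obtain ⟨v, hv⟩ := exists_above (F := F) w
        show w.valuation H (algebraMap F H x) = 1
        rw [val_one_iff hv]
        apply hx v
        intro hvS
        exact hw ((above_iff hv).2 hvS)
      · obtain ⟨v, hv, -⟩ := hw
        exact absurd hv (by simp)
    · rintro ⟨hy, h1, -⟩
      obtain ⟨x, rfl⟩ := hback y h1
      refine ⟨x, ?_, rfl⟩
      intro v hvS
      obtain ⟨w, hw⟩ := (Pool.Agent.K3h25.RS.t_OVER F H v).1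
      rw [← val_one_iff hw]
      refine (mem_unitGroup.1 hy).1 w ?_
      rw [above_iff hw]
      exact hvS
  · ext y
    constructor
    · rintro ⟨x, hx, rfl⟩
      exact ⟨(mu_iff x).2 hx, hpart x⟩
    · rintro ⟨hy, h1, -⟩
      obtain ⟨x, rfl⟩ := hback y h1
      exact ⟨x, (mu_iff x).1 hy, rfl⟩

theorem t_AVK : S_AVK := by
  intro F H G K _ _ _ _ _ _ _ _ _ _ _ _ _ _ w hw
  rcases w with w | w
  · refine ⟨Sum.inl (w.comap (algebraMap K H)), Sum.inl (w.comap (algebraMap F H)), rfl, ?_, rfl,
      fun x => ?_⟩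
    · show (w.comap (algebraMap K H)).comap (algebraMap F K) = w.comap (algebraMap F H)
      rw [← InfinitePlace.comap_comp, ← IsScalarTower.algebraMap_eq F K H]
    · show w (algebraMap K H x) ^ w.mult = (w.comap (algebraMap K H)) x ^
        (w.comap (algebraMap K H)).mult
      rw [← Pool.Agent.K3h15.E2.t_MULT F H G K w hw]
      rfl
  · obtain ⟨P, hP⟩ := exists_above (F := K) w
    obtain ⟨v, hv⟩ := exists_above (F := F) w
    have hPv : Above {v} P := above_mid hv hP
    refine ⟨Sum.inr P, Sum.inr v, hP, hPv, hv, fun x => ?_⟩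
    have hnorm : Ideal.absNorm w.asIdeal = Ideal.absNorm v.asIdeal :=
      Pool.Agent.K3h17.E2.norm_split (G := G) v w hv hw
    haveI := w.isPrime
    haveI := v.isPrime
    haveI := v.isMaximal
    haveI := P.isPrime
    haveI l1 : w.asIdeal.LiesOver v.asIdeal := ⟨(above_singleton.1 hv).symm⟩
    haveI l2 : w.asIdeal.LiesOver P.asIdeal := ⟨(above_singleton.1 hP).symm⟩
    haveI l3 : P.asIdeal.LiesOver v.asIdeal := ⟨(above_singleton.1 hPv).symm⟩
    have hfin : Finite (𝓞 F ⧸ v.asIdeal) := Ideal.finiteQuotientOfFreeOfNeBot _ v.ne_bot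
    have hfin' : Finite v.asIdeal.ResidueField :=
      Finite.of_surjective _ (v.asIdeal.bijective_algebraMap_quotient_residueField).2
    have h1 := Ideal.card_stabilizer_eq_card_inertia_mul_finrank (G := G) v.asIdeal w.asIdeal
    have h2 : Nat.card (MulAction.stabilizer G w.asIdeal) = 1 := by
      rw [Subgroup.card_eq_one, eq_bot_iff]
      intro γ hγ
      rw [Subgroup.mem_bot]
      refine hw γ (Pool.Agent.K3h17.E2.fixes_of_val fun x => ?_)
      refine (Pool.Agent.K3h25.RS.val_aut w w γ (fun y => ?_) x).symm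
      rw [MulAction.mem_stabilizer_iff] at hγ
      conv_rhs => rw [← hγ]
      exact Ideal.smul_mem_pointwise_smul_iff.symm
    rw [h2] at h1
    have h3 : Nat.card (w.asIdeal.inertia G) = 1 := Nat.dvd_one.1 (Dvd.intro _ h1.symm)
    rw [Ideal.card_inertia_eq_ramificationIdxIn v.asIdeal,
      Ideal.ramificationIdxIn_eq_ramificationIdx v.asIdeal w.asIdeal G] at h3
    have h4 : w.asIdeal.ramificationIdx (𝓞 K) = 1 := by
      apply Nat.dvd_one.1
      rw [← h3]
      exact Ideal.ramificationIdx_above_dvd P.asIdeal w.asIdeal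
    have h5 : P.asIdeal.ramificationIdx' w.asIdeal = 1 := by
      rw [Ideal.ramificationIdx'_eq_ramificationIdx P.asIdeal w.asIdeal P.ne_bot, h4]
    have h6 : w.valuation H (algebraMap K H x) = P.valuation K x := by
      rw [← HeightOneSpectrum.valuation_liesOver H P w x, h5, pow_one]
    have h7 : Ideal.absNorm w.asIdeal = Ideal.absNorm P.asIdeal := by
      have e1 := Ideal.absNorm_pow_inertiaDeg P.asIdeal w.asIdeal
      have e2 := Ideal.absNorm_pow_inertiaDeg v.asIdeal P.asIdeal
      have p1 : 0 < w.asIdeal.inertiaDeg (𝓞 K) := Ideal.inertiaDeg_pos w.asIdeal (𝓞 K)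
      have p2 : 0 < P.asIdeal.inertiaDeg (𝓞 F) := Ideal.inertiaDeg_pos P.asIdeal (𝓞 F)
      have n1 := one_lt_norm P
      have n2 := one_lt_norm v
      have q1 : Ideal.absNorm P.asIdeal ≤ Ideal.absNorm w.asIdeal := by
        rw [← e1]
        exact Nat.le_self_pow p1.ne' _
      have q2 : Ideal.absNorm v.asIdeal ≤ Ideal.absNorm P.asIdeal := by
        rw [← e2]
        exact Nat.le_self_pow p2.ne' _
      omega
    show NumberField.HeightOneSpectrum.adicAbv H w (algebraMap K H x) =
      NumberField.HeightOneSpectrum.adicAbv K P x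
    rw [NumberField.HeightOneSpectrum.adicAbv_def, NumberField.HeightOneSpectrum.adicAbv_def, h6]
    simp only [h7]

end Pool.Agent.K3h3.E2
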